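import Pool.Agent.H75.ERG.Targets

/-!
# eg_modules, row C_XSD: the system near the sides
-/

namespace Pool.Agent.H68.EG

open MeasureTheory Set Metric Filter Topology Pool.Agent.H93.BL
open Pool.Agent.H93.EN (av md rf chi gchi Bd Ml Nl Inv Agr sg VV Chart LS Phi)
open Pool.Agent.H93.EG (InvG Sm gN hN nrm)
open Pool.Agent.H75.ERG

namespace XSD

variable {ι : Type} (P : Polygon ι)

lemma not_vtx (j : ι) (x₀ : ℂ) (hx : x₀ ∈ openSegment ℝ (P.p j) (P.q j)) : x₀ ∉ VV P := by
  rintro ⟨i, hi⟩
  have hl : P.p j ∉ openSegment ℝ (P.p j) (P.q j) := fun h =>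
    P.ne j (left_mem_openSegment_iff.1 h)
  have hr : P.q j ∉ openSegment ℝ (P.p j) (P.q j) := fun h =>
    P.ne j (right_mem_openSegment_iff.1 h)
  by_cases hij : j = i
  · subst hij
    rcases hi with h | h
    · rw [h] at hx; exact hl hx
    · rw [h] at hx; exact hr hx
  · have hm : x₀ ∈ segment ℝ (P.p i) (P.q i) := by
      rcases hi with h | h
      · rw [h]; exact left_mem_segment _ _ _
      · rw [h]; exact right_mem_segment _ _ _
    rcases P.meet j i hij with h | ⟨h1, h2⟩
    · exact (Set.disjoint_left.1 h) hx hm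
    · rcases hi with h | h
      · rw [h, h1] at hx; exact hr hx
      · rw [h, h2] at hx; exact hl hx

lemma rho_pos [Finite ι] (j : ι) (x₀ : ℂ) (hx : x₀ ∈ openSegment ℝ (P.p j) (P.q j)) :
    0 < infDist x₀ (VV P) := by
  have hfin : (VV P).Finite := by
    refine Set.Finite.subset ((Set.finite_range P.p).union (Set.finite_range P.q)) ?_
    rintro w ⟨i, h | h⟩
    · left; exact ⟨i, h.symm⟩
    · right; exact ⟨i, h.symm⟩
  exact (hfin.isClosed.notMem_iff_infDist_pos ⟨P.p j, j, Or.inl rfl⟩).1 (not_vtx P j x₀ hx)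

lemma sg_zero (j : ι) (x₀ : ℂ) (hx : x₀ ∈ openSegment ℝ (P.p j) (P.q j)) : sg P j x₀ = 0 := by
  obtain ⟨s, _, _, hs⟩ := (P.mem_openSegment_iff j x₀).1 hx
  unfold sg
  rw [hs, add_sub_cancel_left, cr_smul_right, cr_self, mul_zero]

lemma aff_fix (j : ι) (x : ℂ) (hx : x ∈ openSegment ℝ (P.p j) (P.q j)) : P.aff j x = x :=
  P.aff_of_mem_segment j x (openSegment_subset_segment ℝ _ _ hx)

lemma rho_le (x y : ℂ) : infDist y (VV P) ≤ infDist x (VV P) + dist y x :=
  infDist_le_infDist_add_dist

end XSD

open XSD in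
theorem xsd (hCHT : Pool.Agent.H93.EN.T_CHT) (hAG : Pool.Agent.H93.EN.T_AG) (hBD : T_BDG) :
    T_XSD := by
  intro ι _ P κ hL a δ ha hδ hda G hG j x₀ hx₀
  obtain ⟨c1, c2, c3, _, c5⟩ := hCHT ι P
  have hκ : 0 < κ := hL.1
  have hκ4 : κ ≤ 1 / 4 := hL.2.1
  have hch : Chart P x₀ (κ * infDist x₀ (VV P)) (some j) := hL.2.2.2 j x₀ hx₀
  have hsg0 : sg P j x₀ = 0 := sg_zero P j x₀ hx₀
  have hda' : 16 * δ ≤ a / 4 := by
    have : κ * a ≤ 1 / 4 * a := mul_le_mul_of_nonneg_right hκ4 ha.le
    linarith
  rcases lt_or_ge (infDist x₀ (VV P)) a with hra | hra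
  · -- near a vertex
    have hpos := rho_pos P j x₀ hx₀
    refine ⟨min (a - infDist x₀ (VV P)) (κ * infDist x₀ (VV P)),
      lt_min (by linarith) (mul_pos hκ hpos), fun _ _ => 0, ?_, ?_, ?_⟩
    · refine ⟨?_, fun _ _ => ⟨le_rfl, zero_le_one⟩, 0, fun _ _ _ => rfl⟩
      exact measurable_const
    · exact Filter.Eventually.of_forall fun _ _ _ => rfl
    · intro x hx hsx
      rw [mem_ball] at hx
      have h1 : dist x x₀ < a - infDist x₀ (VV P) := lt_of_lt_of_le hx (min_le_left _ _)
      have h2 : dist x x₀ < κ * infDist x₀ (VV P) := lt_of_lt_of_le hx (min_le_right _ _)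
      refine ⟨hch.2.1 x (mem_ball.2 h2) hsx, ?_⟩
      have h3 := rho_le P x₀ x
      rw [XG_zero P κ a G x (by linarith)]
      exact Filter.Eventually.of_forall fun _ _ _ => rfl
  · have hR : 16 * δ ≤ κ * infDist x₀ (VV P) :=
      hda.trans (mul_le_mul_of_nonneg_left hra hκ.le)
    refine ⟨δ, hδ, Phi P G (some j), hBD ι P G hG.meas hG.bd hG.out (some j), ?_, ?_⟩
    · -- symmetry
      have hnull : ∀ᵐ y : ℂ, sg P j y ≠ 0 := by
        have := c5 j
        rw [ae_iff]
        have h4 : {y : ℂ | ¬ sg P j y ≠ 0} = {y : ℂ | sg P j y = 0} := by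
          ext y
          exact not_not
        rw [h4]
        exact this
      filter_upwards [hnull] with y hy _ w
      have haff : sg P j (P.aff j y) = -sg P j y := (c2 j y y).1
      show (if 0 < sg P j (P.aff j y) then G (P.aff j y) (P.refl j w) else
        G (P.aff j (P.aff j y)) (P.refl j (P.refl j w))) =
        if 0 < sg P j y then G y w else G (P.aff j y) (P.refl j w)
      rw [haff, P.aff_aff, P.refl_refl]
      rcases lt_or_gt_of_ne hy with h | h
      · rw [if_pos (by linarith), if_neg (by linarith)]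
      · rw [if_neg (by linarith), if_pos h]
    · intro x hx hsx
      rw [mem_ball] at hx
      have hxΩ : x ∈ P.Ω := hch.2.1 x (mem_ball.2 (by linarith)) hsx
      refine ⟨hxΩ, ?_⟩
      rcases XG_cases P κ a hL G x hxΩ with ⟨h1, h2⟩ | ⟨h1, τ, h2, h3⟩
      · rw [h2]
        refine Filter.Eventually.of_forall fun y hy w => ?_
        rw [mem_ball] at hy
        show (0 : ℝ) = if 0 < sg P j y then G y w else G (P.aff j y) (P.refl j w)
        by_cases h : 0 < sg P j y
        · rw [if_pos h, hG.van]
          have h4 := rho_le P x y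
          have h5 : dist y x ≤ dist y x₀ + dist x x₀ := by
            rw [dist_comm x x₀]; exact dist_triangle _ _ _
          linarith
        · rw [if_neg h, hG.van]
          have h4 := rho_le P x (P.aff j y)
          have h5 : dist (P.aff j y) x ≤ dist (P.aff j y) x₀ + dist x x₀ := by
            rw [dist_comm x x₀]; exact dist_triangle _ _ _
          have h6 : dist (P.aff j y) x₀ = dist y x₀ := by
            have := (c2 j y x₀).2.1
            rwa [aff_fix P j x₀ hx₀] at this
          linarith
      · rw [h3]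
        have hR' : 0 < min (κ * infDist x (VV P)) (κ * infDist x₀ (VV P) - δ) :=
          lt_min (mul_pos hκ (by linarith)) (by linarith)
        have hA1 : Chart P x (min (κ * infDist x (VV P)) (κ * infDist x₀ (VV P) - δ)) τ := by
          refine c1 x x _ _ τ h2 ?_ ?_
          · rw [dist_self, zero_add]; exact min_le_left _ _
          · intro i hi
            rw [hi] at h2
            exact h2.1
        have hA2 : Chart P x (min (κ * infDist x (VV P)) (κ * infDist x₀ (VV P) - δ))
            (some j) := by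
          refine c1 x₀ x _ _ (some j) hch ?_ ?_
          · have := min_le_right (κ * infDist x (VV P)) (κ * infDist x₀ (VV P) - δ)
            linarith
          · intro i hi
            have hi' : j = i := Option.some.inj hi
            rw [← hi']
            exact hsx.le
        have hA3 := hAG ι P G x _ τ (some j) hxΩ hR' hA1 hA2
        filter_upwards [hA3] with y hy hyb w
        apply hy
        rw [mem_ball] at hyb ⊢
        have h5 : dist y x ≤ dist y x₀ + dist x x₀ := by
          rw [dist_comm x x₀]; exact dist_triangle _ _ _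
        have h6 : κ * a < κ * infDist x (VV P) := mul_lt_mul_of_pos_left h1 hκ
        exact lt_min (by linarith) (by linarith)

end Pool.Agent.H68.EG
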